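import Mathlib
import Pool.Agent.Lib.helper21.Kunen

set_option autoImplicit false

namespace Pool.Agent.Results.MP_817dae_lc.Counter

open Cardinal Set Filter Pool.Agent.Lib.helper21.Kunen

def IsIdeal (I : Set (Set ℕ)) : Prop :=
  (∀ A : Set ℕ, A.Finite → A ∈ I) ∧ (∀ A ∈ I, ∀ B ⊆ A, B ∈ I) ∧ (∀ A ∈ I, ∀ B ∈ I, A ∪ B ∈ I) ∧
    Set.univ ∉ I

def MED (I : Set (Set ℕ)) (E : Set (ℕ → ℕ)) : Prop :=
  (∀ f ∈ E, ∀ g ∈ E, f ≠ g → {n | f n = g n} ∈ I) ∧ ∀ h : ℕ → ℕ, ∃ f ∈ E, {n | f n = h n} ∉ I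

lemma card_closed (X : Type) [TopologicalSpace X] [SecondCountableTopology X] :
    #{C : Set X // IsClosed C} ≤ 𝔠 := by
  let f : {C : Set X // IsClosed C} → Set (TopologicalSpace.countableBasis X) :=
    fun C => {b | b.1 ⊆ C.1ᶜ}
  have hf : Function.Injective f := by
    intro C D h
    refine Subtype.ext (compl_injective ?_)
    rw [(TopologicalSpace.isBasis_countableBasis X).open_eq_sUnion' C.2.isOpen_compl,
      (TopologicalSpace.isBasis_countableBasis X).open_eq_sUnion' D.2.isOpen_compl]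
    congr 1
    ext b
    exact and_congr_right fun hb => Set.ext_iff.1 h ⟨b, hb⟩
  refine (mk_le_of_injective hf).trans ?_
  rw [mk_set, ← two_power_aleph0]
  exact power_le_power_left two_ne_zero (TopologicalSpace.countable_countableBasis X).le_aleph0

lemma kill {A : Set ℕ → Set ℕ} {G : Filter ℕ} {S : Set (Set ℕ)} (hG : Ind A G S) (hS : S.Infinite)
    (hm : ∀ B, B ∉ G → ∃ (s : Finset (Set ℕ)) (x : Set ℕ → Prop), ↑s ⊆ S ∧ (B ∩ comb A s x)ᶜ ∈ G)
    (E : Set (ℕ → ℕ)) (hE : ∀ f ∈ E, ∀ g ∈ E, f ≠ g → {n | f n = g n}ᶜ ∈ G)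
    (U : Ultrafilter ℕ) (hU : (U : Filter ℕ) ≤ G) : ¬ MED {B | Bᶜ ∈ U} E := by
  classical
  rintro ⟨-, h2⟩
  simp only [mem_setOf_eq, Ultrafilter.compl_notMem_iff] at h2
  choose c hc hcU using h2
  let d : ℕ → ℕ → ℕ := fun k => c fun _ => k
  have hd : Function.Injective d := by
    intro a b hab
    obtain ⟨n, h1, h2⟩ := U.nonempty_of_mem (inter_mem (hcU fun _ => a) (hcU fun _ => b))
    exact (show d a n = a from h1).symm.trans (hab ▸ h2)
  let ξ := hS.natEmbedding S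
  let Y : ℕ → Set ℕ := fun k => {n | n ∈ A (ξ k) ↔ A (ξ k) ∈ U}
  have hY : ∀ k, Y k ∈ U := fun k => by
    by_cases h : A (ξ k) ∈ U
    · exact mem_of_superset h fun n hn => iff_of_true hn h
    · exact mem_of_superset (Ultrafilter.compl_mem_iff_notMem.2 h) fun n hn => iff_of_false hn h
  let h : ℕ → ℕ := fun n => if h : ∃ k, n ∉ Y k then d (Nat.find h) n else 0
  obtain ⟨k0, hk0⟩ : ∃ k0, ∀ k, k ≠ k0 → c h ≠ d k := by
    by_cases he : ∃ k, c h = d k
    · obtain ⟨k0, hk0⟩ := he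
      exact ⟨k0, fun k hk h => hk (hd (h.symm.trans hk0))⟩
    · exact ⟨0, fun k _ h => he ⟨k, h⟩⟩
  have hB : {n | c h n = h n} ∩ Y k0 ∈ U := inter_mem (hcU h) (hY k0)
  obtain ⟨s, x, hs, hsx⟩ := hm ({n | c h n = h n} ∩ Y k0)ᶜ fun hc =>
    Ultrafilter.compl_mem_iff_notMem.1 (hU hc) hB
  obtain ⟨k, hk⟩ : ∃ k, (ξ k).1 ∉ s := by
    by_contra hc
    push Not at hc
    exact (infinite_range_of_injective (Subtype.val_injective.comp ξ.injective))
      (s.finite_toSet.subset (by rintro _ ⟨k, rfl⟩; exact hc k))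
  have hall : ∀ᶠ n in G, ∀ j ∈ Iic k, j ≠ k0 → c h n ≠ d j n := by
    refine (eventually_all_finite (finite_Iic k)).2 fun j _ => ?_
    by_cases hj : j = k0
    · exact Eventually.of_forall fun _ h => absurd hj h
    · exact mem_of_superset (hE _ (hc h) _ (hc _) (hk0 j hj)) fun n hn _ => hn
  obtain ⟨n, ⟨h1, h2⟩, h3⟩ := hG (insert (ξ k).1 s)
    (fun i => if i ∈ s then x i else ¬ A (ξ k) ∈ U)
    (by rw [Finset.coe_insert]; exact insert_subset (ξ k).2 hs) _ (inter_mem hsx hall)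
  have h4 : n ∈ comb A s x := fun i hi => by
    simpa [hi] using h3 i (Finset.mem_insert_of_mem hi)
  have h5 : n ∉ Y k := by
    have := h3 _ (Finset.mem_insert_self _ _)
    simp only [hk, if_false] at this
    intro hn
    have hn' : n ∈ A (ξ k) ↔ A (ξ k) ∈ U := hn
    tauto
  have h6 : n ∈ {n | c h n = h n} ∩ Y k0 := by
    by_contra hn
    exact h1 ⟨hn, h4⟩
  have h7 : ∃ k, n ∉ Y k := ⟨k, h5⟩
  refine h2 (Nat.find h7) (Nat.find_min' h7 h5) (fun he => Nat.find_spec h7 (he ▸ h6.2)) ?_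
  exact h6.1.trans (dif_pos h7)

theorem result : ∃ I : Set (Set ℕ), Maximal IsIdeal I ∧
    ∀ E : Set (ℕ → ℕ), IsClosed E → ¬ MED I E := by
  obtain ⟨A, hA⟩ := exists_ind
  obtain ⟨U, hU, hG⟩ := kunen hA _ (card_closed (ℕ → ℕ))
    (fun E G => ∀ U : Ultrafilter ℕ, (U : Filter ℕ) ≤ G → ¬ MED {B | Bᶜ ∈ U} E.1) (by
      intro E F S _ hF hS
      obtain ⟨G, hGF, hG, hm⟩ := hF.maximal
      by_cases h : ∀ f ∈ E.1, ∀ g ∈ E.1, f ≠ g → {n | f n = g n}ᶜ ∈ G
      · exact ⟨G, hGF, ∅, countable_empty, hG.mono diff_subset,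
          kill hG (fun hf => hS hf.countable) hm _ h⟩
      · push Not at h
        obtain ⟨f, hf, g, hg, hfg, h⟩ := h
        obtain ⟨s, x, hs, hsx⟩ := hm _ h
        refine ⟨_, inf_le_left.trans hGF, s, s.countable_toSet, hG.add hs x, fun U hU hM => ?_⟩
        have h1 : {n | f n = g n}ᶜ ∈ U := hM.1 f hf g hg hfg
        exact Ultrafilter.compl_mem_iff_notMem.1 ((hU.trans inf_le_left) hsx)
          (inter_mem h1 ((hU.trans inf_le_right) (mem_principal_self _))))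
  refine ⟨{B | Bᶜ ∈ U}, ⟨⟨fun B hB => hU hB.compl_mem_cofinite,
    fun B hB C hC => mem_of_superset hB (compl_subset_compl.2 hC), fun B hB C hC => ?_, ?_⟩,
    fun J hJ hUJ B hB => ?_⟩, fun E hE => ?_⟩
  · show (B ∪ C)ᶜ ∈ U
    rw [compl_union]; exact inter_mem hB hC
  · simp
  · by_contra hc
    have : Bᶜ ∈ J := hUJ (by simpa using hc)
    exact hJ.2.2.2 (union_compl_self B ▸ hJ.2.2.1 _ hB _ this)
  · obtain ⟨G, h1, h2⟩ := hG ⟨E, hE⟩
    exact h2 U h1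

end Pool.Agent.Results.MP_817dae_lc.Counter
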